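import Pool.Agent.L7h49.WN.Def

/-! Project WN, part NET. -/

namespace Pool.Agent.L7h25.WN
open Pool.Agent.L7h49.WN

lemma norm_zeta : ‖zeta‖ = 1 := by
  have h2 : (0 : ℝ) < √2 := Real.sqrt_pos.2 (by norm_num)
  have h : ‖(1 + Complex.I : ℂ)‖ = √2 := by
    rw [Complex.norm_def]
    congr 1
    simp [Complex.normSq_apply]
    norm_num
  unfold zeta
  rw [norm_div, h, Complex.norm_real, Real.norm_of_nonneg h2.le, div_self h2.ne']

theorem s_NET : S_NET := by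
  intro z s
  have hz : ‖zeta ^ (s : ℕ)‖ = 1 := by rw [norm_pow, norm_zeta, one_pow]
  have hz0 : zeta ^ (s : ℕ) ≠ 0 := by
    intro h
    rw [h, norm_zero] at hz
    exact zero_ne_one hz
  obtain ⟨w, hw⟩ : ∃ w : ℂ, z = zeta ^ (s : ℕ) * w := ⟨z / zeta ^ (s : ℕ), by field_simp⟩
  refine ⟨round w.re, round (w.im - (round w.re : ℝ) / 2), ?_⟩
  unfold pos
  rw [hw, ← mul_sub, norm_mul, hz, one_mul]
  simp only
  have h1 := abs_sub_round w.re
  have h2 := abs_sub_round (w.im - (round w.re : ℝ) / 2)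
  generalize round w.re = k at *
  generalize round (w.im - (k : ℝ) / 2) = i at *
  have e : ‖((k : ℂ) + ((k : ℂ) / 2 + (i : ℂ)) * Complex.I) - w‖ ^ 2
      = ((k : ℝ) - w.re) ^ 2 + (((k : ℝ) / 2 + i) - w.im) ^ 2 := by
    rw [Complex.sq_norm, Complex.normSq_apply]
    have e1 : (((k : ℂ) + ((k : ℂ) / 2 + (i : ℂ)) * Complex.I) - w).re = (k : ℝ) - w.re := by
      simp
    have e2 : (((k : ℂ) + ((k : ℂ) / 2 + (i : ℂ)) * Complex.I) - w).im
        = ((k : ℝ) / 2 + i) - w.im := by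
      simp
    rw [e1, e2]
    ring
  have h3 : ((k : ℝ) - w.re) ^ 2 ≤ 1 / 4 := by
    rw [abs_le] at h1
    nlinarith
  have h4 : (((k : ℝ) / 2 + i) - w.im) ^ 2 ≤ 1 / 4 := by
    rw [abs_le] at h2
    nlinarith
  have h5 : ‖((k : ℂ) + ((k : ℂ) / 2 + (i : ℂ)) * Complex.I) - w‖ ^ 2 ≤ (3 / 4 : ℝ) ^ 2 := by
    rw [e]
    norm_num
    linarith
  exact (pow_le_pow_iff_left₀ (norm_nonneg _) (by norm_num) (by norm_num)).1 h5

end Pool.Agent.L7h25.WN
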