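import Pool.Agent.L7h49.WN.Def

/-! Project WN, part OM. -/

namespace Pool.Agent.L7h25.WN
open Pool.Agent.L7h49.WN

theorem s_OM (hP : S_POT) : S_OM := by
  have ha : ∀ k, |a k| ≤ 1 := by
    intro k
    refine (hP.1 k).trans ?_
    rw [div_le_one (Real.sqrt_pos.2 (by norm_num))]
    exact Real.one_le_sqrt.2 (by norm_num)
  have hb : ∀ k, (1 : ℝ) ≤ 1 + max (a k) 0 ∧ 1 + max (a k) 0 ≤ 42 ∧
      (1 : ℝ) ≤ 1 + max (-a k) 0 ∧ 1 + max (-a k) 0 ≤ 42 := by
    intro k
    have h1 := abs_le.1 (ha k)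
    have m1 : max (a k) 0 ≤ 1 := max_le h1.2 zero_le_one
    have m2 : max (-a k) 0 ≤ 1 := max_le (by linarith) zero_le_one
    have m3 : 0 ≤ max (a k) 0 := le_max_right _ _
    have m4 : 0 ≤ max (-a k) 0 := le_max_right _ _
    refine ⟨by linarith, by linarith, by linarith, by linarith⟩
  rintro ⟨s, k, i⟩ ⟨s', k', i'⟩
  refine ⟨?_, ?_, ?_⟩
  · unfold om
    simp only
    split_ifs with h1 h2 h3 h4 h5 h6 h7 h8 h9 h10 h11 h12 h13 h14 h15 h16 h17 h18 h19 h20 <;>
      first | rfl | (exfalso; omega)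
  · unfold om
    simp only
    split_ifs
    · exact (hb _).1
    · exact (hb _).1
    · exact (hb _).2.2.1
    · exact (hb _).2.2.1
    · norm_num
  · unfold om
    simp only
    split_ifs
    · exact (hb _).2.1
    · exact (hb _).2.1
    · exact (hb _).2.2.2
    · exact (hb _).2.2.2
    · norm_num

end Pool.Agent.L7h25.WN
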